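import Mathlib
import Pool.Prelude.Def_F_8db9d53c
import Pool.Agent.H72.IG.Final

set_option autoImplicit false

open N6ef48c04

namespace Pool.Agent.Results.MP_964892_co.BoundedDiameter

/-- Meyniel's conjecture for graphs of bounded diameter, up to a double logarithm: every connected
graph on `n` vertices in which any two vertices are at distance at most `D` has cop number at most
`49 (D + 1) ^ 2 (1 + log (1 + log n)) ^ 2 √n`. -/
theorem result :
    ∀ (V : Type) [Fintype V] (G : SimpleGraph V) (D : ℕ), G.Connected →
      (∀ a b : V, G.dist a b ≤ D) →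
      (copNumber G : ℝ) ≤ 49 * ((D : ℝ) + 1) ^ 2 *
        (1 + Real.log (1 + Real.log (Fintype.card V))) ^ 2 * Real.sqrt (Fintype.card V) := by
  intro V _ G D hG hD
  exact Pool.Agent.H72.IG.main hG hD

end Pool.Agent.Results.MP_964892_co.BoundedDiameter
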