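import Mathlib
import Pool.Prelude.Def_F_8db9d53c
import Pool.Agent.H18.Mey.Neumann
import Pool.Agent.H18.Mey.Squad

set_option autoImplicit false

namespace Pool.Agent.Results.MP_964892_co.CommutingProbability

open N6ef48c04

/-- Meyniel's bound for graphs with a group of automorphisms with few orbits in which a positive
proportion of the pairs of elements commute: for every `k` and every `ε > 0` there is `C` such that
`c(G) ≤ C √n` for every connected graph `G` on `n` vertices on which a finite group with commuting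
probability at least `ε` acts by automorphisms with at most `k` orbits. -/
theorem result : ∀ (k : ℕ) (ε : ℚ), 0 < ε → ∃ C : ℝ,
    ∀ (V : Type) [Finite V] (G : SimpleGraph V), G.Connected →
    ∀ (Γ : Type) [Group Γ] [Finite Γ] [MulAction Γ V],
      (∀ (g : Γ) (u v : V), G.Adj u v → G.Adj (g • u) (g • v)) →
      Nat.card (MulAction.orbitRel.Quotient Γ V) ≤ k → ε ≤ commProb Γ →
        (copNumber G : ℝ) ≤ C * Real.sqrt (Nat.card V) := by
  intro k ε hε
  obtain ⟨B, q, hB, hN⟩ := Pool.Agent.H18.Mey.neumann hε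
  refine ⟨q * (2 * (B * k : ℕ) * Real.sqrt (B * k : ℕ) + ((B * k : ℕ) : ℝ) ^ (B * k + 2)), ?_⟩
  intro V _ G hG Γ _ _ _ hΓ hk hcp
  obtain ⟨H, hH, hq⟩ := hN Γ hcp
  have h1 : Nat.card (MulAction.orbitRel.Quotient H V) ≤ B * k :=
    (Pool.Agent.H18.Mey.card_orbits_le H).trans (Nat.mul_le_mul hH hk)
  have h2 := Pool.Agent.H18.Mey.copNumber_le_comm (H := H) hG (fun h u v => hΓ h u v) h1 hq
  refine h2.trans ?_
  have hne : Nonempty V := hG.nonempty
  have h3 : (1 : ℝ) ≤ Nat.card V := by exact_mod_cast Nat.card_pos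
  have h4 : (1 : ℝ) ≤ Real.sqrt (Nat.card V) := Real.one_le_sqrt.2 h3
  have h5 : Real.sqrt (((B * k : ℕ) : ℝ) * Nat.card V) =
      Real.sqrt (B * k : ℕ) * Real.sqrt (Nat.card V) := Real.sqrt_mul (Nat.cast_nonneg _) _
  rw [h5, mul_assoc (q : ℝ)]
  refine mul_le_mul_of_nonneg_left ?_ (Nat.cast_nonneg _)
  have h6 : (0 : ℝ) ≤ ((B * k : ℕ) : ℝ) ^ (B * k + 2) := by positivity
  nlinarith

end Pool.Agent.Results.MP_964892_co.CommutingProbability
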