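import Mathlib
import Pool.Prelude.Def_F_8db9d53c
import Pool.Agent.H83.BD.Fin

set_option autoImplicit false

open N6ef48c04

namespace Pool.Agent.Results.MP_964892_co.LogDiameter

theorem card_nb_le {V : Type} [Fintype V] {G : SimpleGraph V} {Δ : ℕ}
    (h : ∀ x : V, {y | G.Adj x y}.ncard ≤ Δ) (y : V) : (Pool.Agent.H4.Mey.nb G y).card ≤ Δ + 1 := by
  classical
  have h1 : Pool.Agent.H4.Mey.nb G y ⊆ insert y (Finset.univ.filter (fun z => G.Adj y z)) := by
    intro z hz
    rw [Pool.Agent.H4.Mey.mem_nb] at hz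
    rcases hz with hz | hz
    · rw [hz]; exact Finset.mem_insert_self _ _
    · exact Finset.mem_insert_of_mem (Finset.mem_filter.2 ⟨Finset.mem_univ _, hz⟩)
  have h2 : (Finset.univ.filter (fun z => G.Adj y z)).card ≤ Δ := by
    have := h y
    rwa [Set.ncard_eq_toFinset_card', Set.toFinset_ofPred] at this
  calc (Pool.Agent.H4.Mey.nb G y).card ≤ _ := Finset.card_le_card h1
    _ ≤ _ := Finset.card_insert_le _ _
    _ ≤ _ := by omega

/-- Meyniel's bound for graphs of bounded degree and logarithmic diameter: for all `Δ` and `K` there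
is `C` such that every connected graph `G` with `n` vertices, in which every vertex has at most `Δ`
neighbours and any two vertices are at distance at most `K (1 + log n)`, has cop number at most
`C √n`. -/
theorem result : ∀ (Δ : ℕ) (K : ℝ), ∃ C : ℝ,
    ∀ (V : Type) [Fintype V] (G : SimpleGraph V), G.Connected →
      (∀ x : V, {y | G.Adj x y}.ncard ≤ Δ) →
      (∀ x y : V, (G.dist x y : ℝ) ≤ K * (1 + Real.log (Fintype.card V))) →
      (copNumber G : ℝ) ≤ C * Real.sqrt (Fintype.card V) := by
  intro Δ K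
  obtain ⟨C, hC⟩ := Pool.Agent.H4.Mey.BD.main Δ K
  exact ⟨C, fun V _ G hG hΔ hD => hC V G hG (card_nb_le hΔ) hD⟩

end Pool.Agent.Results.MP_964892_co.LogDiameter
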