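import Mathlib
import Pool.Prelude.Def_F_8db9d53c
import Pool.Agent.H44.ML.Final

set_option autoImplicit false

open N6ef48c04

namespace Pool.Agent.Results.MP_964892_co.MeynielOneLog

/-- Meyniel's conjecture up to one logarithm: every connected graph on `n` vertices has cop number
at most `16 √n (1 + log n)`. -/
theorem result :
    ∀ (V : Type) [Fintype V] (G : SimpleGraph V), G.Connected →
      (copNumber G : ℝ) ≤ 16 * Real.sqrt (Fintype.card V) * (1 + Real.log (Fintype.card V)) := by
  intro V _ G hG
  exact Pool.Agent.H44.ML.copNumber_le_log hG

end Pool.Agent.Results.MP_964892_co.MeynielOneLog
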